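import Pool.Agent.helper37.L5.SpecE

set_option autoImplicit false

/-!
# L5 (MP_baa4d7_al), row FIN5: two families of multiplicities
-/

namespace Pool.Agent.L5

open Pool.Agent.helper58.DC Pool.Agent.DI Pool.Agent.GR Pool.Agent.OB Pool.Agent.DR Pool.Agent.FI Pool.Agent.FI3 Pool.Agent.FI4 Pool.Agent.FI4I Pool.Agent.FI4E Pool.Agent.LE

/-- a rational algebraic integer is an integer -/
theorem FIN5_rat (q : ℚ) (h : IsIntegral ℤ (q : ℂ)) : ∃ z : ℤ, (z : ℚ) = q := by
  have h0 : IsIntegral ℤ (algebraMap ℚ ℂ q) := h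
  have h1 : IsIntegral ℤ q := (isIntegral_algebraMap_iff (algebraMap ℚ ℂ).injective).mp h0
  exact IsIntegrallyClosed.isIntegral_iff.mp h1

/-- orthogonality -/
theorem FIN5_orth (N : ℕ) (ζ : ℂ) (hζ : IsPrimitiveRoot ζ N) (l i : ℕ) (hl : l < N) (hi : i < N) :
    ∑ j ∈ Finset.range N, (ζ ^ (l + (N - i))) ^ j = if l = i then (N : ℂ) else 0 := by
  split_ifs with h
  · rw [h, show i + (N - i) = N by omega, hζ.pow_eq_one]
    simp
  · have h1 : ζ ^ (l + (N - i)) ≠ 1 := by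
      intro h2
      have h3 := hζ.dvd_of_pow_eq_one _ h2
      have h4 : N ∣ l + (N - i) := h3
      obtain ⟨k, hk⟩ := h4
      have h5 : k = 1 := by
        have h6 : 0 < k := by
          rcases Nat.eq_zero_or_pos k with h7 | h7
          · rw [h7] at hk
            omega
          · exact h7
        have h8 : k < 2 := by
          by_contra h9
          have h10 : N * 2 ≤ N * k := Nat.mul_le_mul_left _ (by omega)
          omega
        omega
      rw [h5] at hk
      omega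
    have h2 : (ζ ^ (l + (N - i))) ^ N = 1 := by
      rw [← pow_mul, mul_comm, pow_mul, hζ.pow_eq_one, one_pow]
    have h3 := mul_neg_geom_sum (ζ ^ (l + (N - i))) N
    rw [h2, sub_self] at h3
    rcases mul_eq_zero.mp h3 with h4 | h4
    · exact absurd (sub_eq_zero.mp h4).symm h1
    · exact h4

theorem FIN5 : FIN5_stmt := by
  intro p c N hp hN hpN ζ hζ m m' hm hm' h0 h0' hk i hi
  choose k hk using hk
  have hpc : (p : ℂ) ^ c ≠ 0 := pow_ne_zero _ (by exact_mod_cast hp.ne_zero)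
  -- Fourier inversion
  have h1 : (N : ℂ) * ((m i : ℂ) - m' i) = (p : ℂ) ^ c * ∑ j ∈ Finset.range N, (ζ ^ (N - i)) ^ j * (k j : ℂ) := by
    have e1 : ∀ n : ℕ → ℕ, ∑ j ∈ Finset.range N, (ζ ^ (N - i)) ^ j * ∑ l ∈ Finset.range N, (n l : ℂ) * ζ ^ (l * j) =
        (N : ℂ) * n i := by
      intro n
      have e2 : ∑ j ∈ Finset.range N, (ζ ^ (N - i)) ^ j * ∑ l ∈ Finset.range N, (n l : ℂ) * ζ ^ (l * j) =
          ∑ l ∈ Finset.range N, (n l : ℂ) * ∑ j ∈ Finset.range N, (ζ ^ (l + (N - i))) ^ j := by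
        simp only [Finset.mul_sum]
        rw [Finset.sum_comm]
        refine Finset.sum_congr rfl fun l _ => Finset.sum_congr rfl fun j _ => ?_
        rw [pow_add, mul_pow, pow_mul]
        ring
      rw [e2, Finset.sum_eq_single i]
      · rw [FIN5_orth N ζ hζ i i hi hi, if_pos rfl, mul_comm]
      · intro l hl hli
        rw [FIN5_orth N ζ hζ l i (Finset.mem_range.mp hl) hi, if_neg hli, mul_zero]
      · intro h
        exact absurd (Finset.mem_range.mpr hi) h
    have e3 : (N : ℂ) * ((m i : ℂ) - m' i) = ∑ j ∈ Finset.range N, (ζ ^ (N - i)) ^ j *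
        (∑ i ∈ Finset.range N, (m i : ℂ) * ζ ^ (i * j) - ∑ i ∈ Finset.range N, (m' i : ℂ) * ζ ^ (i * j)) := by
      simp only [mul_sub]
      rw [Finset.sum_sub_distrib, e1, e1]
    rw [e3, Finset.mul_sum]
    refine Finset.sum_congr rfl fun j _ => ?_
    rw [hk j]
    ring
  have hint : IsIntegral ℤ (∑ j ∈ Finset.range N, (ζ ^ (N - i)) ^ j * (k j : ℂ)) := by
    refine IsIntegral.sum _ fun j _ => ?_
    refine IsIntegral.mul ?_ ?_
    · exact ((hζ.isIntegral hN).pow _).pow _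
    · have := isIntegral_algebraMap (R := ℤ) (A := ℂ) (x := k j)
      simpa using this
  have h2 : ∃ z : ℤ, (N : ℤ) * ((m i : ℤ) - m' i) = (p : ℤ) ^ c * z := by
    have e1 : (((N : ℚ) * ((m i : ℚ) - m' i) / (p : ℚ) ^ c : ℚ) : ℂ) =
        ∑ j ∈ Finset.range N, (ζ ^ (N - i)) ^ j * (k j : ℂ) := by
      push_cast
      rw [h1, mul_div_cancel_left₀ _ hpc]
    obtain ⟨z, hz⟩ := FIN5_rat _ (by rw [e1]; exact hint)
    refine ⟨z, ?_⟩
    have hpq : (p : ℚ) ^ c ≠ 0 := pow_ne_zero _ (by exact_mod_cast hp.ne_zero)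
    have e2 : (N : ℚ) * ((m i : ℚ) - m' i) = (p : ℚ) ^ c * z := by
      rw [hz, mul_div_cancel₀ _ hpq]
    exact_mod_cast e2
  have h3 : (p : ℤ) ^ c ∣ (m i : ℤ) - m' i := by
    have hcop : IsCoprime ((p : ℤ) ^ c) (N : ℤ) := by
      refine IsCoprime.pow_left ?_
      exact Nat.isCoprime_iff_coprime.mpr ((Nat.Prime.coprime_iff_not_dvd hp).mpr hpN)
    exact hcop.dvd_of_dvd_mul_left ⟨_, h2.choose_spec⟩
  -- the bounds
  have hb : ∀ n : ℕ → ℕ, ∑ i ∈ Finset.range N, n i ≤ p ^ c → 1 ≤ n 0 → (i = 0 → 1 ≤ n i) ∧ n i ≤ p ^ c ∧ (i ≠ 0 → n i < p ^ c) := by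
    intro n hn hn0
    refine ⟨fun h => by rw [h]; exact hn0, ?_, fun h => ?_⟩
    · exact (Finset.single_le_sum (fun _ _ => Nat.zero_le _) (Finset.mem_range.mpr hi)).trans hn
    · have e1 : ∑ j ∈ ({0, i} : Finset ℕ), n j ≤ ∑ i ∈ Finset.range N, n i := by
        refine Finset.sum_le_sum_of_subset fun j hj => ?_
        rw [Finset.mem_insert, Finset.mem_singleton] at hj
        rw [Finset.mem_range]
        rcases hj with hj | hj <;> omega
      rw [Finset.sum_pair (Ne.symm h)] at e1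
      omega
  obtain ⟨a1, a2, a3⟩ := hb m hm h0
  obtain ⟨b1, b2, b3⟩ := hb m' hm' h0'
  have h4 : |(m i : ℤ) - m' i| < (p : ℤ) ^ c := by
    have c1 : (m i : ℤ) ≤ (p : ℤ) ^ c := by exact_mod_cast a2
    have c2 : (m' i : ℤ) ≤ (p : ℤ) ^ c := by exact_mod_cast b2
    rw [abs_lt]
    by_cases h : i = 0
    · have d1 := a1 h
      have d2 := b1 h
      constructor <;> omega
    · have d1 : (m i : ℤ) < (p : ℤ) ^ c := by exact_mod_cast a3 h
      have d2 : (m' i : ℤ) < (p : ℤ) ^ c := by exact_mod_cast b3 h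
      constructor <;> omega
  have h5 := Int.eq_zero_of_abs_lt_dvd h3 h4
  omega

end Pool.Agent.L5
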