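import Pool.Agent.helper37.L5.SpecE
import Pool.Agent.helper24.L5.FR5

set_option autoImplicit false

/-!
# L5 (MP_baa4d7_al), row FR5E: the equivariant form of the theorem of Fong and Reynolds
-/

namespace Pool.Agent.L5

open Pool.Agent.helper58.DC Pool.Agent.DI Pool.Agent.GR Pool.Agent.OB Pool.Agent.DR Pool.Agent.FI Pool.Agent.FI3 Pool.Agent.FI4 Pool.Agent.FI4I Pool.Agent.FI4E Pool.Agent.LE

section

variable {G : Type} [Group G]

theorem FR5E_symm [Finite G] (p : ℕ) (H : Subgroup G) (a b : G → ℂ) : EE p H a b = EE p H b a := by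
  classical
  have := Fintype.ofFinite G
  unfold EE
  rw [FR5_fm, FR5_fm, ← Equiv.sum_comp (Equiv.inv G)]
  congr 1
  refine Finset.sum_congr rfl fun v _ => ?_
  rw [Equiv.inv_apply]
  have h1 : v⁻¹ ∈ {v : G | v ∈ H ∧ PReg p v} ↔ v ∈ {v : G | v ∈ H ∧ PReg p v} := by
    simp only [Set.mem_ofPred_eq, PReg, orderOf_inv, H.inv_mem_iff]
  by_cases hv : v ∈ {v : G | v ∈ H ∧ PReg p v}
  · rw [Set.indicator_of_mem (h1.2 hv), Set.indicator_of_mem hv, inv_inv, mul_comm]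
  · rw [Set.indicator_of_notMem (fun h => hv (h1.1 h)), Set.indicator_of_notMem hv]

theorem FR5E_EE1 [Finite G] (p : ℕ) (H S : Subgroup G) (hSH : S ≤ H) (φ ζ η : G → ℂ)
    (hηc : ∀ g, ∀ h ∈ H, η (h * g * h⁻¹) = η g) (hζ : ∀ g, g ∉ S → ζ g = 0)
    (hf : ∀ x ∈ H, φ x = (∑ᶠ h ∈ (H : Set G), ζ (h⁻¹ * x * h)) / Nat.card S) :
    EE p H φ η = EE p S ζ η := by
  classical
  have := Fintype.ofFinite G
  unfold EE
  rw [FR5_fm, FR5_fm]
  set P : Set G := {v : G | v ∈ H ∧ PReg p v} with hP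
  set Q : Set G := {v : G | v ∈ S ∧ PReg p v} with hQ
  have hPc : ∀ h ∈ H, ∀ u, h * u * h⁻¹ ∈ P ↔ u ∈ P := by
    intro h hh u
    constructor
    · rintro ⟨h1, h2⟩
      refine ⟨?_, ?_⟩
      · have := H.mul_mem (H.mul_mem (H.inv_mem hh) h1) hh
        have e1 : h⁻¹ * (h * u * h⁻¹) * h = u := by group
        rwa [e1] at this
      · have := FR5_preg h⁻¹ _ h2
        have e1 : h⁻¹ * (h * u * h⁻¹) * h⁻¹⁻¹ = u := by group
        rwa [e1] at this
    · rintro ⟨h1, h2⟩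
      exact ⟨H.mul_mem (H.mul_mem hh h1) (H.inv_mem hh), FR5_preg h _ h2⟩
  have hS0 : (Nat.card S : ℂ) ≠ 0 := by exact_mod_cast (Nat.card_pos (α := S)).ne'
  have hH0 : (Nat.card H : ℂ) ≠ 0 := by exact_mod_cast (Nat.card_pos (α := H)).ne'
  have h1 : ∀ v : G, P.indicator (fun v => φ v * η v⁻¹) v =
      (∑ h : G, (H : Set G).indicator (fun h => P.indicator (fun v => ζ (h⁻¹ * v * h) * η v⁻¹) v) h) / Nat.card S := by
    intro v
    by_cases hv : v ∈ P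
    · rw [Set.indicator_of_mem hv, hf v hv.1, FR5_fm, div_mul_eq_mul_div, Finset.sum_mul]
      congr 1
      refine Finset.sum_congr rfl fun h _ => ?_
      by_cases hh : h ∈ (H : Set G)
      · rw [Set.indicator_of_mem hh, Set.indicator_of_mem hh, Set.indicator_of_mem hv]
      · rw [Set.indicator_of_notMem hh, Set.indicator_of_notMem hh, zero_mul]
    · rw [Set.indicator_of_notMem hv]
      symm
      rw [Finset.sum_eq_zero, zero_div]
      intro h _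
      by_cases hh : h ∈ (H : Set G)
      · rw [Set.indicator_of_mem hh, Set.indicator_of_notMem hv]
      · rw [Set.indicator_of_notMem hh]
  rw [Finset.sum_congr rfl fun v _ => h1 v, ← Finset.sum_div, Finset.sum_comm]
  set C : ℂ := ∑ u : G, Q.indicator (fun v => ζ v * η v⁻¹) u with hC
  have h2 : ∀ h : G, (∑ v : G, (H : Set G).indicator (fun h => P.indicator (fun v => ζ (h⁻¹ * v * h) * η v⁻¹) v) h) =
      (H : Set G).indicator (fun _ => C) h := by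
    intro h
    by_cases hh : h ∈ (H : Set G)
    · simp only [Set.indicator_of_mem hh]
      rw [← Equiv.sum_comp (MulAut.conj h).toEquiv, hC]
      refine Finset.sum_congr rfl fun u _ => ?_
      have e0 : (MulAut.conj h).toEquiv u = h * u * h⁻¹ := rfl
      rw [e0]
      have e1 : h⁻¹ * (h * u * h⁻¹) * h = u := by group
      have e2 : (h * u * h⁻¹)⁻¹ = h * u⁻¹ * h⁻¹ := by group
      by_cases hu : u ∈ P
      · rw [Set.indicator_of_mem ((hPc h hh u).2 hu), e1, e2, hηc _ h hh]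
        by_cases huS : u ∈ S
        · have h3 : u ∈ Q := ⟨huS, hu.2⟩
          rw [Set.indicator_of_mem h3]
        · have h3 : u ∉ Q := fun hc => huS hc.1
          rw [Set.indicator_of_notMem h3, hζ u huS, zero_mul]
      · have h3 : u ∉ Q := fun hc => hu ⟨hSH hc.1, hc.2⟩
        rw [Set.indicator_of_notMem (fun hc => hu ((hPc h hh u).1 hc)), Set.indicator_of_notMem h3]
    · simp only [Set.indicator_of_notMem hh]; simp
  rw [Finset.sum_congr rfl fun h _ => h2 h]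
  have h3 : (∑ h : G, (H : Set G).indicator (fun _ => C) h) = Nat.card H * C := by
    have h4 := FR5_fm (H : Set G) (fun _ => C)
    rw [← h4, finsum_mem_eq_finite_toFinset_sum _ (Set.toFinite (H : Set G)), Finset.sum_const, nsmul_eq_mul]
    congr 2
    rw [← Set.ncard_eq_toFinset_card _ (Set.toFinite (H : Set G))]
    exact Nat.card_coe_set_eq (H : Set G) |>.symm
  rw [h3]
  field_simp

theorem FR5E_mt [Finite G] (α : MulAut G) (S : Subgroup G) (hS : am α S = S) (φ ψ : G → ℂ) :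
    Pool.Agent.FI.mt S (funMap α φ) (funMap α ψ) = Pool.Agent.FI.mt S φ ψ := by
  classical
  have := Fintype.ofFinite G
  unfold Pool.Agent.FI.mt
  rw [FR5_fm, FR5_fm, ← Equiv.sum_comp α.toEquiv]
  congr 1
  refine Finset.sum_congr rfl fun v _ => ?_
  have e0 : α.toEquiv v = α v := rfl
  rw [e0]
  have h1 : α v ∈ (S : Set G) ↔ v ∈ (S : Set G) := by
    have h2 : α v ∈ am α S ↔ v ∈ S := by
      rw [mem_am, MulAut.inv_apply_self]
    rw [hS] at h2
    exact h2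
  by_cases hv : v ∈ (S : Set G)
  · rw [Set.indicator_of_mem (h1.2 hv), Set.indicator_of_mem hv]
    simp only [funMap]
    rw [← map_inv, MulAut.inv_apply_self, MulAut.inv_apply_self]
  · rw [Set.indicator_of_notMem (fun h => hv (h1.1 h)), Set.indicator_of_notMem hv]

end

theorem FR5E (hFRA : FRA5_stmt) (hFRB : FRB5_stmt) (hFRD : FRD5_stmt) (hFRE : FRE5_stmt) (hFXA : FXA_stmt) (hBAA : BAA_stmt) (hQRS : QRS_stmt) (hEVM : EVM_stmt) (hIDM : IDM_stmt) (hCCI : CCI_stmt) (hQEI : QEI_stmt) (hFBC : FBC_stmt) (hB2 : B2_stmt) : FR5E_stmt := by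
  classical
  intro p M hS G _ _ D x θ χ hRt R hRD hnR α hα hαR H hKH hTH hαH
  have := Fintype.ofFinite G
  obtain ⟨hA1, hA2⟩ := hFRA p M hS G D x θ χ hRt R hRD hnR
  have hDK : cz D ≤ cz R := Subgroup.centralizer_le (fun r hr => hRD hr)
  set K := cz R with hK
  set S := K ⊔ TT M D θ with hSdef
  have hKS : K ≤ S := le_sup_left
  have hSH : S ≤ H := sup_le hKH hTH
  obtain ⟨-, -, hT3, -, hX5, -⟩ := hFXA p M hS G D θ hRt.th α hα
  have hαK : am α K = K := by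
    have h1 := (hBAA G M p α R R R χ χ χ).1.1
    rw [hαR] at h1
    exact h1.symm
  have hαS : am α S = S := by
    have h1 : am α (K ⊔ TT M D θ) = am α K ⊔ am α (TT M D θ) := Subgroup.map_sup _ _ _
    rw [hSdef, h1, hαK, hT3]
  set b := Bl M K θ with hb
  set e := eS K b with he
  have hbI : b ⊆ IrrOn K := fun ψ h => h.1
  obtain ⟨hCFK, hcce, hcve, -⟩ := hIDM G K b hbI
  rw [← he] at hCFK hcce hcve
  have hCFS : CF S e := ⟨hA1, fun y hy => hCFK.2 y fun h => hy (hKS h)⟩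
  have hne : ∀ (L : Subgroup G), ∀ ψ ∈ IrrOn L, ψ 1 ≠ 0 := by
    intro L ψ h
    obtain ⟨n, hn, e1, -⟩ := ((hB2 G L).2 ψ h).1
    rw [e1]; exact_mod_cast hn.ne'
  have hFK := (hB2 G K).1
  have hFS := (hB2 G S).1
  -- membership through `ev`
  have hmem : ∀ L : Subgroup G, K ≤ L → ∀ φ ∈ IrrOn L, (ev φ e 1 ≠ 0 ↔ φ ∈ Bl M L θ) := by
    intro L hL φ hφ
    have h1 := hFRB p M hS G D x θ χ hRt R hRD hnR L hL φ hφ
    rw [h1]
    have h2 := FR5_ev hQRS L K hL hFK (hne K) e hCFK.2 φ hφ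
    have hterm : ∀ ψ ∈ hFK.toFinset, ∃ m : ℕ, Pool.Agent.FI.mt K φ ψ * (cc ψ e * ψ 1) = m := by
      intro ψ hψ
      have hψ' : ψ ∈ IrrOn K := hFK.mem_toFinset.1 hψ
      obtain ⟨n, hn⟩ := (hQRS G L K hL φ hφ).1 ψ hψ'
      obtain ⟨d, -, hd, -⟩ := ((hB2 G K).2 ψ hψ').1
      rw [hn, hd, hcce ψ hψ']
      by_cases hm : ψ ∈ b
      · exact ⟨n * d, by rw [if_pos hm]; push_cast; ring⟩
      · exact ⟨0, by rw [if_neg hm]; simp⟩
    constructor
    · intro h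
      by_contra hno
      push Not at hno
      apply h
      rw [h2]
      refine Finset.sum_eq_zero fun ψ hψ => ?_
      have hψ' : ψ ∈ IrrOn K := hFK.mem_toFinset.1 hψ
      by_cases hm : ψ ∈ b
      · rw [hno ψ hm, zero_mul]
      · rw [hcce ψ hψ', if_neg hm, zero_mul, mul_zero]
    · rintro ⟨ψ, hψ, hmt⟩ h0
      rw [h2] at h0
      have h3 := FR5_natsum _ _ hterm h0 ψ (hFK.mem_toFinset.2 (hbI hψ))
      rw [hcce ψ (hbI hψ), if_pos hψ, one_mul] at h3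
      exact mul_ne_zero hmt (hne K ψ (hbI hψ)) h3
  -- `cc ζ e`
  have hcc : ∀ ζ ∈ IrrOn S, (cc ζ e = 1 ↔ ζ ∈ Bl M S θ) := by
    intro ζ hζ
    rw [← hmem S hKS ζ hζ]
    have h1 : ev ζ e 1 = cc ζ e * ζ 1 := (hEVM G S ζ hζ e hCFS 1 S.one_mem).2
    have h2 : cc ζ e = cc ζ e * cc ζ e := by
      have := (hCCI G S ζ hζ).2.1 e e hCFS hCFS
      rw [hcve] at this
      exact this
    rw [h1]
    constructor
    · intro h
      rw [h, one_mul]; exact hne S ζ hζ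
    · intro h
      have h3 : cc ζ e ≠ 0 := left_ne_zero_of_mul h
      have h4 : cc ζ e * (cc ζ e - 1) = 0 := by linear_combination - h2
      rcases mul_eq_zero.1 h4 with h5 | h5
      · exact absurd h5 h3
      · linear_combination h5
  have hFRD' : ∀ φ, ∃ ζ : G → ℂ, φ ∈ Bl M H θ → ζ ∈ IrrOn S ∧ cc ζ e = 1 ∧ Pool.Agent.FI.mt S φ ζ = 1 ∧
      (∀ ζ' ∈ IrrOn S, cc ζ' e = 1 → ζ' ≠ ζ → Pool.Agent.FI.mt S φ ζ' = 0) ∧
      ∀ x ∈ H, φ x = (∑ᶠ h ∈ (H : Set G), ζ (h⁻¹ * x * h)) / Nat.card S := by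
    intro φ
    by_cases hφ : φ ∈ Bl M H θ
    · obtain ⟨ζ, hζ⟩ := hFRD G S H hSH e hCFS hcve (fun h _ hh => hA2 h hh) φ hφ.1 ((hmem H hKH φ hφ.1).2 hφ)
      exact ⟨ζ, fun _ => hζ⟩
    · exact ⟨0, fun hh => absurd hh hφ⟩
  choose F hF using hFRD'
  have hBC := (hFBC p M hS G S θ 1).1
  have hQ := (hQEI p M hS G S (Bl M S θ) hBC).2.1
  unfold tE tS
  refine finsum_mem_eq_of_bijOn F ⟨?_, ?_, ?_⟩ ?_
  · intro φ hφ
    obtain ⟨h1, h2, -⟩ := hF φ hφ
    exact (hcc (F φ) h1).1 h2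
  · intro φ hφ φ' hφ' heq
    obtain ⟨-, -, -, -, h1⟩ := hF φ hφ
    obtain ⟨-, -, -, -, h2⟩ := hF φ' hφ'
    funext y
    by_cases hy : y ∈ H
    · rw [h1 y hy, h2 y hy, heq]
    · rw [hφ.1.1 y hy, hφ'.1.1 y hy]
  · intro ζ hζ
    obtain ⟨φ, hφ, hmt⟩ := hFRE G S H hSH ζ hζ.1
    obtain ⟨ψ, hψ, hmt2⟩ := (hFRB p M hS G D x θ χ hRt R hRD hnR S hKS ζ hζ.1).1 hζ
    have hφB : φ ∈ Bl M H θ := by
      refine (hFRB p M hS G D x θ χ hRt R hRD hnR H hKH φ hφ).2 ⟨ψ, hψ, ?_⟩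
      intro h0
      rw [FR5_mt hQRS H S K hSH hKS hFS φ hφ ψ] at h0
      have hterm : ∀ ζ' ∈ hFS.toFinset, ∃ m : ℕ, Pool.Agent.FI.mt S φ ζ' * Pool.Agent.FI.mt K ζ' ψ = m := by
        intro ζ' hζ'
        have hζ'' : ζ' ∈ IrrOn S := hFS.mem_toFinset.1 hζ'
        obtain ⟨n, hn⟩ := (hQRS G H S hSH φ hφ).1 ζ' hζ''
        obtain ⟨n', hn'⟩ := (hQRS G S K hKS ζ' hζ'').1 ψ (hbI hψ)
        exact ⟨n * n', by rw [hn, hn']; push_cast; ring⟩
      exact mul_ne_zero hmt hmt2 (FR5_natsum _ _ hterm h0 ζ (hFS.mem_toFinset.2 hζ.1))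
    refine ⟨φ, hφB, ?_⟩
    obtain ⟨-, -, -, h1, -⟩ := hF φ hφB
    by_contra hne'
    exact hmt (h1 ζ hζ.1 ((hcc ζ hζ.1).2 hζ) (fun hh => hne' hh.symm))
  · intro φ hφ
    obtain ⟨h1, h2, h3, h4, h5⟩ := hF φ hφ
    -- the image of `φ`
    have hφα : funMap α φ ∈ Bl M H θ := hX5 H (hDK.trans hKH) hαH φ hφ
    obtain ⟨a1, a2, a3, a4, a5⟩ := hF (funMap α φ) hφα
    have hζB : F φ ∈ Bl M S θ := (hcc (F φ) h1).1 h2
    have hζα : funMap α (F φ) ∈ Bl M S θ := hX5 S (hDK.trans hKS) hαS (F φ) hζB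
    have hFα : F (funMap α φ) = funMap α (F φ) := by
      by_contra hno
      have c1 := a4 (funMap α (F φ)) hζα.1 ((hcc _ hζα.1).2 hζα) (fun hh => hno hh.symm)
      rw [FR5E_mt α S hαS, h3] at c1
      exact one_ne_zero c1
    have hηc : ∀ g, ∀ h ∈ H, funMap α φ (h * g * h⁻¹) = funMap α φ g := ((hB2 G H).2 _ hφα.1).2.1
    rw [FR5E_symm, FR5E_EE1 p H S hSH φ (F φ) (funMap α φ) hηc h1.1 h5, FR5_EE2 hQRS p H S hSH hFS _ hφα.1 (F φ)]
    rw [Finset.sum_eq_single (funMap α (F φ))]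
    · rw [FR5E_mt α S hαS, h3, one_mul, FR5E_symm]
    · intro ζ' hζ' hne'
      have hζ'' : ζ' ∈ IrrOn S := hFS.mem_toFinset.1 hζ'
      by_cases hm : ζ' ∈ Bl M S θ
      · rw [a4 ζ' hζ'' ((hcc ζ' hζ'').2 hm) (fun hh => hne' (hh.trans hFα)), zero_mul]
      · rw [(hQ (F φ) hζB ζ' hζ'' hm).1, mul_zero]
    · intro hno
      exact absurd (hFS.mem_toFinset.2 hζα.1) hno

end Pool.Agent.L5
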