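import Pool.Agent.helper37.L5.SpecE
import Pool.Agent.helper27.FI4E.PRK

set_option autoImplicit false

/-!
# L5 (MP_baa4d7_al), row MLT5: the multiplicities of the eigenvalues of an automorphism
-/

namespace Pool.Agent.L5

open Pool.Agent.helper58.DC Pool.Agent.DI Pool.Agent.GR Pool.Agent.OB Pool.Agent.DR Pool.Agent.FI Pool.Agent.FI3 Pool.Agent.FI4 Pool.Agent.FI4I Pool.Agent.FI4E Pool.Agent.LE

theorem MLT5_rank {n : Type} [Fintype n] [DecidableEq n] (A : Matrix n n ℂ) (hA : A * A = A) :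
    ∃ l : ℕ, Matrix.trace A = l ∧ (l = 0 → A = 0) := by
  have h1 : IsIdempotentElem (Matrix.toLin' A) := by
    change Matrix.toLin' A * Matrix.toLin' A = Matrix.toLin' A
    rw [Module.End.mul_eq_comp, ← Matrix.toLin'_mul, hA]
  have h2 : LinearMap.IsProj (LinearMap.range (Matrix.toLin' A)) (Matrix.toLin' A) := by
    refine ⟨fun x => LinearMap.mem_range_self _ x, ?_⟩
    rintro x ⟨y, rfl⟩
    exact LinearMap.congr_fun h1 y
  have h3 := h2.trace
  refine ⟨Module.finrank ℂ (LinearMap.range (Matrix.toLin' A)), ?_, fun h => ?_⟩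
  · rw [← h3, Matrix.trace_toLin'_eq]
  · have h4 : LinearMap.range (Matrix.toLin' A) = ⊥ := Submodule.finrank_eq_zero.mp h
    rw [LinearMap.range_eq_bot] at h4
    exact (LinearEquiv.map_eq_zero_iff Matrix.toLin').mp h4

/-- orthogonality -/
theorem MLT5_orth (N : ℕ) (hN : 0 < N) (ζ : ℂ) (hζ : IsPrimitiveRoot ζ N) (j k : ℕ) (hj : j < N) (hk : k < N) :
    ∑ i ∈ Finset.range N, ζ ^ (i * j) * (ζ⁻¹) ^ (i * k) = if k = j then (N : ℂ) else 0 := by
  have hζ0 : ζ ≠ 0 := hζ.ne_zero hN.ne'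
  have e1 : ∀ i ∈ Finset.range N, ζ ^ (i * j) * (ζ⁻¹) ^ (i * k) = (ζ ^ j * (ζ⁻¹) ^ k) ^ i := by
    intro i _
    rw [mul_pow, ← pow_mul, ← pow_mul, mul_comm j i, mul_comm k i]
  rw [Finset.sum_congr rfl e1]
  split_ifs with h
  · have e2 : ζ ^ j * (ζ⁻¹) ^ k = 1 := by
      rw [h, inv_pow, mul_inv_cancel₀ (pow_ne_zero _ hζ0)]
    rw [e2]
    simp
  · have e2 : ζ ^ j * (ζ⁻¹) ^ k ≠ 1 := by
      intro h2
      have h3 : ζ ^ j = ζ ^ k := by
        rw [inv_pow] at h2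
        field_simp at h2
        exact h2
      exact h (hζ.pow_inj hk hj h3.symm)
    have e3 : (ζ ^ j * (ζ⁻¹) ^ k) ^ N = 1 := by
      rw [mul_pow, ← pow_mul, ← pow_mul, mul_comm j, mul_comm k, pow_mul, pow_mul, inv_pow, hζ.pow_eq_one]
      simp
    have h3 := mul_neg_geom_sum (ζ ^ j * (ζ⁻¹) ^ k) N
    rw [e3, sub_self] at h3
    rcases mul_eq_zero.mp h3 with h4 | h4
    · exact absurd (sub_eq_zero.mp h4).symm e2
    · exact h4

/-- the projections onto the eigenspaces -/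
noncomputable def MLT5_Q {ι : Type} [Fintype ι] [DecidableEq ι] (P : Matrix ι ι ℂ) (N : ℕ) (ζ : ℂ) (i : ℕ) : Matrix ι ι ℂ :=
  (N : ℂ)⁻¹ • ∑ k ∈ Finset.range N, (ζ⁻¹) ^ (i * k) • P ^ k

theorem MLT5_PQ {ι : Type} [Fintype ι] [DecidableEq ι] (P : Matrix ι ι ℂ) (N : ℕ) (hN : 0 < N) (ζ : ℂ)
    (hζ : IsPrimitiveRoot ζ N) (hP : P ^ N = 1) (i : ℕ) : P * MLT5_Q P N ζ i = ζ ^ i • MLT5_Q P N ζ i := by
  have hζ0 : ζ ≠ 0 := hζ.ne_zero hN.ne'
  unfold MLT5_Q
  rw [Matrix.mul_smul, smul_comm (ζ ^ i)]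
  congr 1
  rw [Finset.mul_sum, Finset.smul_sum]
  set F : ℕ → Matrix ι ι ℂ := fun k => (ζ ^ i * (ζ⁻¹) ^ (i * k)) • P ^ k with hF
  have e1 : ∀ k ∈ Finset.range N, P * (ζ⁻¹) ^ (i * k) • P ^ k = F (k + 1) := by
    intro k _
    simp only [hF]
    rw [Matrix.mul_smul, ← pow_succ']
    congr 1
    rw [mul_add, mul_one, pow_add, inv_pow ζ i]
    have := pow_ne_zero i hζ0
    field_simp
  have e2 : ∀ k ∈ Finset.range N, ζ ^ i • (ζ⁻¹) ^ (i * k) • P ^ k = F k := by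
    intro k _
    simp only [hF]
    rw [smul_smul]
  rw [Finset.sum_congr rfl e1, Finset.sum_congr rfl e2]
  have e3 := Finset.sum_range_succ F N
  have e4 := Finset.sum_range_succ' F N
  have e5 : F N = F 0 := by
    simp only [hF]
    rw [hP, mul_zero, pow_zero, pow_zero, mul_comm i N, pow_mul, inv_pow, hζ.pow_eq_one]
    simp
  rw [e3, e5] at e4
  exact (add_right_cancel e4).symm

theorem MLT5_PkQ {ι : Type} [Fintype ι] [DecidableEq ι] (P : Matrix ι ι ℂ) (N : ℕ) (hN : 0 < N) (ζ : ℂ)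
    (hζ : IsPrimitiveRoot ζ N) (hP : P ^ N = 1) (i k : ℕ) : P ^ k * MLT5_Q P N ζ i = ζ ^ (i * k) • MLT5_Q P N ζ i := by
  induction k with
  | zero => rw [pow_zero, mul_zero, pow_zero, one_mul, one_smul]
  | succ k ih =>
    rw [pow_succ', mul_assoc, ih, Matrix.mul_smul, MLT5_PQ P N hN ζ hζ hP, smul_smul, mul_add, mul_one, pow_add]

theorem MLT5_QQ {ι : Type} [Fintype ι] [DecidableEq ι] (P : Matrix ι ι ℂ) (N : ℕ) (hN : 0 < N) (ζ : ℂ)
    (hζ : IsPrimitiveRoot ζ N) (hP : P ^ N = 1) (i : ℕ) : MLT5_Q P N ζ i * MLT5_Q P N ζ i = MLT5_Q P N ζ i := by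
  have hζ0 : ζ ≠ 0 := hζ.ne_zero hN.ne'
  have hN0 : (N : ℂ) ≠ 0 := by exact_mod_cast hN.ne'
  have e0 : MLT5_Q P N ζ i * MLT5_Q P N ζ i =
      ((N : ℂ)⁻¹ • ∑ k ∈ Finset.range N, (ζ⁻¹) ^ (i * k) • P ^ k) * MLT5_Q P N ζ i := rfl
  rw [e0, Matrix.smul_mul, Finset.sum_mul]
  have e1 : ∀ k ∈ Finset.range N, (ζ⁻¹) ^ (i * k) • P ^ k * MLT5_Q P N ζ i = MLT5_Q P N ζ i := by
    intro k _
    rw [Matrix.smul_mul, MLT5_PkQ P N hN ζ hζ hP, smul_smul, inv_pow, inv_mul_cancel₀ (pow_ne_zero _ hζ0), one_smul]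
  rw [Finset.sum_congr rfl e1, Finset.sum_const, Finset.card_range, ← Nat.cast_smul_eq_nsmul ℂ, smul_smul,
    inv_mul_cancel₀ hN0, one_smul]

theorem MLT5_lin {ι : Type} [Fintype ι] [DecidableEq ι] (E P : Matrix ι ι ℂ) (N : ℕ) (hN : 0 < N) (ζ : ℂ)
    (hζ : IsPrimitiveRoot ζ N) (hE : E * E = E) (hPE : P * E = E * P) (hP : P ^ N = 1) :
    ∃ m : ℕ → ℕ, (∀ j, Matrix.trace (E * P ^ j) = ∑ i ∈ Finset.range N, (m i : ℂ) * ζ ^ (i * j)) ∧
      (m 0 = 0 → ∀ w : ι → ℂ, Matrix.vecMul w P = w → Matrix.vecMul w E = 0) := by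
  have hN0 : (N : ℂ) ≠ 0 := by exact_mod_cast hN.ne'
  have hcomk : ∀ k, P ^ k * E = E * P ^ k := by
    intro k
    have h1 : Commute P E := hPE
    exact (h1.pow_left k)
  have hcomQ : ∀ i, MLT5_Q P N ζ i * E = E * MLT5_Q P N ζ i := by
    intro i
    unfold MLT5_Q
    rw [Matrix.smul_mul, Matrix.mul_smul, Finset.sum_mul, Finset.mul_sum]
    congr 1
    refine Finset.sum_congr rfl fun k _ => ?_
    rw [Matrix.smul_mul, Matrix.mul_smul, hcomk]
  have hid : ∀ i, (E * MLT5_Q P N ζ i) * (E * MLT5_Q P N ζ i) = E * MLT5_Q P N ζ i := by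
    intro i
    calc (E * MLT5_Q P N ζ i) * (E * MLT5_Q P N ζ i) = E * (MLT5_Q P N ζ i * E) * MLT5_Q P N ζ i := by
          simp only [mul_assoc]
      _ = (E * E) * (MLT5_Q P N ζ i * MLT5_Q P N ζ i) := by
          rw [hcomQ]
          simp only [mul_assoc]
      _ = _ := by rw [hE, MLT5_QQ P N hN ζ hζ hP]
  choose m hm hm0 using fun i => MLT5_rank _ (hid i)
  refine ⟨m, fun j => ?_, fun h w hw => ?_⟩
  · -- reduce to `j < N`
    have hred : E * P ^ j = E * P ^ (j % N) := by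
      have h1 : P ^ j = P ^ (j % N) := by
        conv_lhs => rw [← Nat.div_add_mod j N, pow_add, pow_mul, hP, one_pow, one_mul]
      rw [h1]
    have hred2 : ∀ i, ζ ^ (i * j) = ζ ^ (i * (j % N)) := by
      intro i
      conv_lhs => rw [← Nat.div_add_mod j N, mul_add, pow_add, mul_left_comm, pow_mul, hζ.pow_eq_one, one_pow, one_mul]
    have hj : j % N < N := Nat.mod_lt _ hN
    rw [hred]
    simp only [hred2]
    set l := j % N with hl
    have e1 : ∀ i, (m i : ℂ) = (N : ℂ)⁻¹ * ∑ k ∈ Finset.range N, (ζ⁻¹) ^ (i * k) * Matrix.trace (E * P ^ k) := by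
      intro i
      rw [← hm i]
      unfold MLT5_Q
      rw [Matrix.mul_smul, Matrix.trace_smul, Finset.mul_sum, Matrix.trace_sum, smul_eq_mul]
      congr 1
      refine Finset.sum_congr rfl fun k _ => ?_
      rw [Matrix.mul_smul, Matrix.trace_smul, smul_eq_mul]
    have e2 : ∑ i ∈ Finset.range N, (m i : ℂ) * ζ ^ (i * l) =
        (N : ℂ)⁻¹ * ∑ k ∈ Finset.range N, Matrix.trace (E * P ^ k) *
          ∑ i ∈ Finset.range N, ζ ^ (i * l) * (ζ⁻¹) ^ (i * k) := by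
      simp only [e1, Finset.mul_sum, Finset.sum_mul]
      rw [Finset.sum_comm]
      refine Finset.sum_congr rfl fun k _ => Finset.sum_congr rfl fun i _ => ?_
      ring
    rw [e2, Finset.sum_eq_single l]
    · rw [MLT5_orth N hN ζ hζ l l hj hj, if_pos rfl, mul_comm (Matrix.trace _), ← mul_assoc, inv_mul_cancel₀ hN0, one_mul]
    · intro k hk hkl
      rw [MLT5_orth N hN ζ hζ l k hj (Finset.mem_range.mp hk), if_neg hkl, mul_zero]
    · intro h
      exact absurd (Finset.mem_range.mpr hj) h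
  · have h1 := hm0 0 h
    have h2 : Matrix.vecMul w (MLT5_Q P N ζ 0) = w := by
      have h3 : ∀ k, Matrix.vecMul w (P ^ k) = w := by
        intro k
        induction k with
        | zero => rw [pow_zero, Matrix.vecMul_one]
        | succ k ih => rw [pow_succ, ← Matrix.vecMul_vecMul, ih, hw]
      unfold MLT5_Q
      rw [Matrix.vecMul_smul]
      have h4 : Matrix.vecMul w (∑ k ∈ Finset.range N, (ζ⁻¹) ^ (0 * k) • P ^ k) = (N : ℂ) • w := by
        have h5 : ∀ s : Finset ℕ, Matrix.vecMul w (∑ k ∈ s, (ζ⁻¹) ^ (0 * k) • P ^ k) = (s.card : ℂ) • w := by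
          intro s
          induction s using Finset.induction_on with
          | empty => simp
          | insert a s ha ih =>
            rw [Finset.sum_insert ha, Matrix.vecMul_add, ih, zero_mul, pow_zero, one_smul, h3, Finset.card_insert_of_notMem ha]
            push_cast
            rw [add_smul, one_smul, add_comm]
        have h6 := h5 (Finset.range N)
        rwa [Finset.card_range] at h6
      rw [h4, smul_smul, inv_mul_cancel₀ hN0, one_smul]
    calc Matrix.vecMul w E = Matrix.vecMul (Matrix.vecMul w (MLT5_Q P N ζ 0)) E := by rw [h2]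
      _ = Matrix.vecMul w (MLT5_Q P N ζ 0 * E) := Matrix.vecMul_vecMul _ _ _
      _ = 0 := by rw [hcomQ, h1, Matrix.vecMul_zero]

theorem MLT5 (hQEI : QEI_stmt) (hBAA : BAA_stmt) (hB2 : B2_stmt) (hCHC : Pool.Agent.FI.CHC_stmt) : MLT5_stmt := by
  classical
  intro p M hM G _ _ H S hS hne α hαH hst N hN hαN ζ hζ
  have hEE : ∀ η ψ : G → ℂ, EE p H (funMap α η) (funMap α ψ) = EE p H η ψ := by
    intro η ψ
    have h1 := (hBAA G M p α H H H η ψ ψ).2.2.2.2.2.2.1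
    rw [hαH] at h1
    exact h1
  have hSfin : S.Finite := (hB2 G H).1.subset hS.sub
  have hinj : ∀ ψ ψ' : G → ℂ, funMap α ψ = funMap α ψ' → ψ = ψ' := by
    intro ψ ψ' h
    funext x
    have h1 := congrFun h (α x)
    simp only [funMap] at h1
    rw [MulAut.inv_apply_self] at h1
    exact h1
  let ι : Type := S
  have _f : Fintype ι := hSfin.fintype
  let f : ι → ι := fun ψ => ⟨funMap α ψ.1, hst ψ.1 ψ.2⟩
  have hf : Function.Injective f := by
    intro a b hab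
    apply Subtype.ext
    exact hinj _ _ (congrArg Subtype.val hab)
  let σ : Equiv.Perm ι := Equiv.ofBijective f (Finite.injective_iff_bijective.1 hf)
  have hσ : ∀ ψ : ι, ((σ ψ : ι) : G → ℂ) = funMap α (ψ : G → ℂ) := fun ψ => rfl
  have hσj : ∀ (j : ℕ) (ψ : ι), (((σ ^ j) ψ : ι) : G → ℂ) = funMap (α ^ j) (ψ : G → ℂ) := by
    intro j
    induction j with
    | zero =>
      intro ψ
      rw [pow_zero, pow_zero]
      funext x
      simp only [funMap]
      rw [inv_one]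
      rfl
    | succ j ih =>
      intro ψ
      rw [pow_succ', pow_succ', Pool.Agent.FI4E.funMap_mul, ← ih ψ]
      rfl
  let E : Matrix ι ι ℂ := fun φ ψ => EE p H φ ψ
  have hsum : ∀ F : (G → ℂ) → ℂ, ∑ᶠ ψ ∈ S, F ψ = ∑ ψ : ι, F ψ := by
    intro F
    rw [← finsum_set_coe_eq_finsum_mem, finsum_eq_sum_of_fintype]
  have htr : ∀ j : ℕ, Matrix.trace (E * PRK_pm σ ^ j) = tS p H S (α ^ j) := by
    intro j
    rw [PRK_pow, PRK_trace]
    unfold tS
    rw [hsum]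
    refine Finset.sum_congr rfl fun ψ _ => ?_
    change EE p H (((σ ^ j) ψ : ι) : G → ℂ) ψ = _
    rw [hσj]
  have hEEid : E * E = E := by
    ext φ ψ
    rw [Matrix.mul_apply]
    have h1 := (hQEI p M hM G H S hS).1 φ.1 φ.2 ψ.1 ψ.2
    rw [hsum] at h1
    exact h1
  have hcom : PRK_pm σ * E = E * PRK_pm σ := by
    ext φ ψ
    obtain ⟨ψ', rfl⟩ := σ.surjective ψ
    rw [PRK_left, PRK_right]
    change EE p H ((σ φ : ι) : G → ℂ) ((σ ψ' : ι) : G → ℂ) = EE p H φ ψ'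
    rw [hσ, hσ, hEE]
  have hpow : PRK_pm σ ^ N = 1 := by
    rw [PRK_pow]
    have h1 : σ ^ N = 1 := by
      ext1 ψ
      apply Subtype.ext
      rw [hσj, hαN]
      funext x
      simp only [funMap]
      rw [inv_one]
      rfl
    rw [h1, PRK_one]
  obtain ⟨m, hm, hm0⟩ := MLT5_lin E (PRK_pm σ) N hN ζ hζ hEEid hcom hpow
  refine ⟨m, ?_, fun j => by rw [← htr, hm]⟩
  by_contra hlt
  have hz : m 0 = 0 := by omega
  set w : ι → ℂ := fun φ => (φ : G → ℂ) 1 with hw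
  have hwP : Matrix.vecMul w (PRK_pm σ) = w := by
    funext ψ
    obtain ⟨ψ', rfl⟩ := σ.surjective ψ
    rw [Matrix.vecMul, dotProduct, Finset.sum_eq_single ψ']
    · unfold PRK_pm
      rw [if_pos rfl, mul_one]
      simp only [hw]
      rw [hσ]
      simp only [funMap]
      rw [map_one]
    · intro b _ hb
      unfold PRK_pm
      rw [if_neg fun h => hb (σ.injective h).symm, mul_zero]
    · intro h
      exact absurd (Finset.mem_univ _) h
  have hwE := hm0 hz w hwP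
  -- the positive number
  have hdeg : ∀ φ : ι, ∃ n : ℕ, 0 < n ∧ (φ : G → ℂ) 1 = n := by
    intro φ
    obtain ⟨n, hn, e1, -⟩ := ((hB2 G H).2 φ.1 (hS.sub φ.2)).1
    exact ⟨n, hn, e1⟩
  choose d hd0 hd using hdeg
  have := Fintype.ofFinite G
  set V : Set G := {v : G | v ∈ H ∧ PReg p v} with hV
  have hVfin : V.Finite := Set.toFinite _
  set F : G → ℂ := fun v => ∑ φ : ι, (d φ : ℂ) * (φ : G → ℂ) v with hF
  have hcard : (Nat.card H : ℂ) ≠ 0 := by exact_mod_cast (Nat.card_pos (α := H)).ne'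
  have e1 : ∑ ψ : ι, (d ψ : ℂ) * ∑ φ : ι, w φ * EE p H φ ψ = (∑ v ∈ hVfin.toFinset, F v * (starRingEnd ℂ) (F v)) / Nat.card H := by
    have g1 : ∀ φ ψ : ι, EE p H φ ψ = (∑ v ∈ hVfin.toFinset, (φ : G → ℂ) v * (ψ : G → ℂ) v⁻¹) / Nat.card H := by
      intro φ ψ
      unfold EE
      rw [finsum_mem_eq_finite_toFinset_sum _ hVfin]
    have g2 : ∀ v : G, (starRingEnd ℂ) (F v) = ∑ ψ : ι, (d ψ : ℂ) * (ψ : G → ℂ) v⁻¹ := by
      intro v
      simp only [hF]
      rw [map_sum]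
      refine Finset.sum_congr rfl fun ψ _ => ?_
      rw [map_mul, hCHC G H ψ.1 (hS.sub ψ.2) v, Complex.conj_natCast]
    have g3 : ∀ v : G, F v * (starRingEnd ℂ) (F v) = ∑ ψ : ι, ∑ φ : ι, (d ψ : ℂ) * ((d φ : ℂ) * ((φ : G → ℂ) v * (ψ : G → ℂ) v⁻¹)) := by
      intro v
      rw [g2, mul_comm]
      simp only [hF]
      rw [Finset.sum_mul_sum]
      exact Finset.sum_congr rfl fun ψ _ => Finset.sum_congr rfl fun φ _ => by ring
    rw [Finset.sum_congr rfl fun v _ => g3 v, Finset.sum_comm, Finset.sum_div]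
    refine Finset.sum_congr rfl fun ψ _ => ?_
    rw [Finset.sum_comm, Finset.sum_div, Finset.mul_sum]
    refine Finset.sum_congr rfl fun φ _ => ?_
    rw [g1, ← Finset.mul_sum, ← Finset.mul_sum]
    simp only [hw]
    rw [hd φ]
    ring
  have e2 : ∑ ψ : ι, (d ψ : ℂ) * ∑ φ : ι, w φ * EE p H φ ψ = 0 := by
    refine Finset.sum_eq_zero fun ψ _ => ?_
    have h1 : ∑ φ : ι, w φ * EE p H φ ψ = 0 := congrFun hwE ψ
    rw [h1, mul_zero]
  rw [e2] at e1
  have e3 : ∑ v ∈ hVfin.toFinset, F v * (starRingEnd ℂ) (F v) = 0 := by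
    have := e1.symm
    rwa [div_eq_zero_iff, or_iff_left hcard] at this
  have e4 : ∑ v ∈ hVfin.toFinset, Complex.normSq (F v) = 0 := by
    have h1 : ((∑ v ∈ hVfin.toFinset, Complex.normSq (F v) : ℝ) : ℂ) = 0 := by
      rw [Complex.ofReal_sum, ← e3]
      exact Finset.sum_congr rfl fun v _ => (Complex.mul_conj _).symm
    exact_mod_cast h1
  have h1V : (1 : G) ∈ hVfin.toFinset := by
    rw [Set.Finite.mem_toFinset]
    refine ⟨H.one_mem, ?_⟩
    unfold PReg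
    rw [orderOf_one]
    exact fun h => absurd (Nat.le_of_dvd one_pos h) (not_le.mpr hM.pr.one_lt)
  have e5 := (Finset.sum_eq_zero_iff_of_nonneg fun v _ => Complex.normSq_nonneg _).mp e4 1 h1V
  rw [Complex.normSq_eq_zero] at e5
  have e6 : ((∑ φ : ι, d φ * d φ : ℕ) : ℂ) = 0 := by
    rw [← e5]
    simp only [hF]
    push_cast
    exact Finset.sum_congr rfl fun φ _ => by rw [hd φ]
  have e7 : ∑ φ : ι, d φ * d φ = 0 := by exact_mod_cast e6
  obtain ⟨ψ0, hψ0⟩ := hne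
  have e8 := (Finset.sum_eq_zero_iff.mp e7) ⟨ψ0, hψ0⟩ (Finset.mem_univ _)
  have e9 := hd0 ⟨ψ0, hψ0⟩
  have e10 : 0 < d ⟨ψ0, hψ0⟩ * d ⟨ψ0, hψ0⟩ := Nat.mul_pos e9 e9
  omega

end Pool.Agent.L5
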